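import Pool.Agent.U331.FS.W
import Pool.Agent.Results.MP_1e1427_nt.AlmostAllOddIntegers

/-!
# Four squares: many sieved quadruples near ALL integral combinations of an infinite sequence in every dense set

Let `β` be a function with `β(X) ≥ 1` and `β(X) (log X)² / √X → 0`. We show that every set `B` of natural numbers of positive lower
density contains an infinite sequence `a₀, a₁, …` such that EVERY odd integer `k` near an integral combination `v = |∑ uᵢ aᵢ| ≠ 0` with
bounded coefficients has at least `δ_n √X / β(X)` quadruples `k = x² + y² + z² + w²` for which all prime factors of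
`2^(x+y) + 2^(z+w) + 1` are larger than `β(X)`; here `n` is the largest index with `u_n ≠ 0`, `X` is a bound for the combinations of the
first `n + 1` terms, and near means at distance at most `n`. There is no exception among the infinitely many combinations.

Proof: a greedy choice. The exceptions up to `X` have a proportion which can be made as small as one likes by the choice of `δ_n` (the
starting result `AlmostAllOddIntegers`); at the step `n` there are at most `(2 H + 1) ^ (n + 1)` conditions for the new term, each of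
them excludes a small proportion of the integers up to `M n`, and together they do not exhaust `B` (`Pool.Agent.U331.FS`).
-/

set_option autoImplicit false

namespace Pool.Agent.Results.MP_1e1427_nt.AllCombinations

open Filter Topology Finset
open Pool.Agent.Results.MP_1e1427_nt.AlmostAllOddIntegers (quads)

/-- **Theorem.** Let `β(X) ≥ 1` and `β(X) (log X)² / √X → 0`, let `c > 0`, `H` and `N₀` be given. There are positive numbers `δ_n` and an
increasing function `M` such that every set `B` of natural numbers with at least `c N` elements up to `N` for all `N ≥ N₀` contains the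
terms of a sequence `a_n ≤ M n` with the following property. For all integral vectors `u ≠ 0` with finite support and entries of absolute
value at most `H` and for the largest index `n` with `u n ≠ 0` the number `v = |∑ uᵢ aᵢ|` is not zero and at most
`X = (n + 1) (H + 1) M n`, and EVERY odd `k` with `|k - v| ≤ n` has at least `δ_n √X / β(X)` quadruples in `quads (β X) k`. -/
theorem result (β : ℕ → ℝ) (hβ : ∀ X, 1 ≤ β X)
    (hβ' : Tendsto (fun X : ℕ => β X * (Real.log X) ^ 2 / √(X : ℝ)) atTop (𝓝 0)) (c : ℝ) (hc : 0 < c) (H N₀ : ℕ) :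
    ∃ δ : ℕ → ℝ, (∀ n, 0 < δ n) ∧ ∃ M : ℕ → ℕ, Monotone M ∧ ∀ B : Set ℕ,
      (∀ N : ℕ, N₀ ≤ N → c * N ≤ ({x : ℕ | x ∈ B ∧ x ≤ N}.ncard : ℝ)) →
      ∃ a : ℕ → ℕ, (∀ n, a n ∈ B) ∧ (∀ n, a n ≤ M n) ∧
        ∀ u : ℕ →₀ ℤ, (∀ i, |u i| ≤ H) → ∀ n, u n ≠ 0 → (∀ i, n < i → u i = 0) →
          (∑ i ∈ u.support, u i * (a i : ℤ)) ≠ 0 ∧
          (∑ i ∈ u.support, u i * (a i : ℤ)).natAbs ≤ (n + 1) * (H + 1) * M n ∧
          ∀ k : ℕ, |(k : ℤ) - (∑ i ∈ u.support, u i * (a i : ℤ)).natAbs| ≤ n → Odd k →
            δ n * (√(((n + 1) * (H + 1) * M n : ℕ) : ℝ) / β ((n + 1) * (H + 1) * M n)) ≤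
              (quads (β ((n + 1) * (H + 1) * M n)) k).ncard := by
  classical
  have hε : ∀ n : ℕ, 0 < c / (4 * (2 * (H : ℝ) + 1) ^ (n + 1) * ((n + 1) * (H + 1))) / (2 * (2 * n + 1)) := by
    intro n
    positivity
  choose δ hδ A hA X₁ hX₁ using fun n : ℕ => AlmostAllOddIntegers.result _ (hε n)
  refine ⟨δ, hδ, ?_⟩
  refine Pool.Agent.U331.FS.sums_dens_windows
    (P := fun n X k => Odd k → δ n * (√(X : ℝ) / β X) ≤ (quads (β X) k).ncard) hc H N₀ (fun n => ?_)
  obtain ⟨X₂, hX₂⟩ := eventually_atTop.mp (hβ'.eventually (gt_mem_nhds (show (0 : ℝ) < 1 / (4 * A n) by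
    have := hA n
    positivity)))
  refine ⟨max (max (X₁ n) X₂) (n + 2), fun X hX => ?_⟩
  have g1 : X₁ n ≤ X := ((le_max_left _ _).trans (le_max_left _ _)).trans hX
  have g2 : X₂ ≤ X := ((le_max_right _ _).trans (le_max_left _ _)).trans hX
  have g3 : n + 2 ≤ X := (le_max_right _ _).trans hX
  have hXr : (2 : ℝ) ≤ X := by exact_mod_cast (by omega : 2 ≤ X)
  have hs : (0 : ℝ) < √(X : ℝ) := Real.sqrt_pos.2 (by linarith)
  have hsle : √(X : ℝ) ≤ √((X + n : ℕ) : ℝ) := Real.sqrt_le_sqrt (by exact_mod_cast Nat.le_add_right X n)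
  have hlog : Real.log ((X + n : ℕ) : ℝ) ≤ 2 * Real.log X := by
    have h1 : ((X + n : ℕ) : ℝ) ≤ (X : ℝ) ^ 2 := by
      have : X + n ≤ X ^ 2 := by nlinarith
      exact_mod_cast this
    calc Real.log ((X + n : ℕ) : ℝ) ≤ Real.log ((X : ℝ) ^ 2) :=
          Real.log_le_log (by exact_mod_cast (by omega : 0 < X + n)) h1
      _ = 2 * Real.log X := by rw [Real.log_pow]; norm_num
  have hlog0 : 0 ≤ Real.log ((X + n : ℕ) : ℝ) := Real.log_natCast_nonneg _
  have hcond : A n * β X * (Real.log ((X + n : ℕ) : ℝ)) ^ 2 ≤ √((X + n : ℕ) : ℝ) := by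
    have h1 := hX₂ X g2
    rw [div_lt_iff₀ hs] at h1
    have hA' := hA n
    have h2 : A n * (β X * Real.log X ^ 2) < A n * (1 / (4 * A n) * √(X : ℝ)) := mul_lt_mul_of_pos_left h1 hA'
    have h3 : A n * (1 / (4 * A n) * √(X : ℝ)) = √(X : ℝ) / 4 := by
      field_simp
    have h4 : (Real.log ((X + n : ℕ) : ℝ)) ^ 2 ≤ (2 * Real.log X) ^ 2 := pow_le_pow_left₀ hlog0 hlog 2
    have h5 : A n * β X * (Real.log ((X + n : ℕ) : ℝ)) ^ 2 ≤ A n * β X * (2 * Real.log X) ^ 2 :=
      mul_le_mul_of_nonneg_left h4 (mul_nonneg hA'.le (by linarith [hβ X]))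
    have h6 : A n * β X * (2 * Real.log X) ^ 2 = 4 * (A n * (β X * Real.log X ^ 2)) := by ring
    linarith
  have h := hX₁ n (X + n) (g1.trans (Nat.le_add_right _ _)) (β X) (hβ X) hcond
  refine ⟨_, fun k hk hk' => ?_, h⟩
  rw [mem_filter, mem_range]
  push Not at hk'
  refine ⟨by omega, hk'.1, hk'.2.trans_le ?_⟩
  have hb : 0 < β X := by linarith [hβ X]
  exact mul_le_mul_of_nonneg_left (div_le_div_of_nonneg_right hsle hb.le) (hδ n).le

end Pool.Agent.Results.MP_1e1427_nt.AllCombinations
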