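import Mathlib
import Pool.Agent.U949.CL.Rho
import Pool.Agent.U949.CL.Dev

set_option autoImplicit false

/-!
# Exponentially small exceptional probabilities in random models of the primes

The question is whether every odd `n > 1` is a sum of four squares `x² + y² + z² + w²` of natural
numbers such that `2 ^ (x + y) + 2 ^ (z + w) + 1` is prime.  In Cramér's model of the primes with a growing
sieve (independent choices; no `m` with a prime factor at most `z(m)` is chosen, the other `m` with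
probability `∏_{q ≤ z(m)} (1 - 1/q)⁻¹ / log m`) the probability that some odd `n ≥ N` is an exception, or only
that the number `R(n)` of its quadruples differs from its mean by the factor `1 ± η`, is at most
`exp (-N ^ (3/8 - ε))` for all large `N`.
-/

open MeasureTheory ProbabilityTheory Filter
open scoped Topology

namespace Pool.Agent.Results.MP_1e1427_nt.ExceptionalProbabilities

/-- the quadruples of natural numbers with `n = x² + y² + z² + w²` -/
def four (n : ℕ) : Set (ℕ × ℕ × ℕ × ℕ) :=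
  {v | n = v.1 ^ 2 + v.2.1 ^ 2 + v.2.2.1 ^ 2 + v.2.2.2 ^ 2}

/-- the value `2 ^ (x + y) + 2 ^ (z + w) + 1` -/
def form (v : ℕ × ℕ × ℕ × ℕ) : ℕ := 2 ^ (v.1 + v.2.1) + 2 ^ (v.2.2.1 + v.2.2.2) + 1

/-- the number of quadruples of natural numbers with `n = x² + y² + z² + w²` for which
`2 ^ (x + y) + 2 ^ (z + w) + 1` belongs to `S` -/
noncomputable def R (S : Set ℕ) (n : ℕ) : ℕ := {v | v ∈ four n ∧ form v ∈ S}.ncard

/-- `∏_{q ≤ x} (1 - 1/q)⁻¹`, `q` prime -/
noncomputable def W (x : ℕ) : ℝ := ∏ q ∈ (Finset.Icc 1 x).filter Nat.Prime, (1 - (q : ℝ)⁻¹)⁻¹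

open Classical in
/-- the probability that `m` is chosen: `W (z m) / log m` (at most `1`) if `m` has no prime factor at most
`z m`, and `0` otherwise -/
noncomputable def rho (z : ℕ → ℕ) (m : ℕ) : ℝ :=
  if ∀ q, q.Prime → q ≤ z m → ¬ q ∣ m then min 1 (W (z m) / Real.log m) else 0

/-- the expected number of quadruples: the sum of `rho (2 ^ (x + y) + 2 ^ (z + w) + 1)` over all quadruples
with `n = x² + y² + z² + w²` -/
noncomputable def E (z : ℕ → ℕ) (n : ℕ) : ℝ := ∑ᶠ v ∈ four n, rho z (form v)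

open Pool.Agent.R494.SPL Pool.Agent.U949.CL

lemma four_eq (n : ℕ) : four n = ((quad n : Finset (ℕ × ℕ × ℕ × ℕ)) : Set (ℕ × ℕ × ℕ × ℕ)) := by
  ext v
  rw [Finset.mem_coe, mem_quad]
  rfl

lemma E_eq (z : ℕ → ℕ) (n : ℕ) : E z n = Ex (Pool.Agent.N233.GM.rho1 z) (quad n) val2 := by
  unfold E
  rw [four_eq, finsum_mem_coe_finset]
  rfl

lemma R_eq {Ω : Type} {A : ℕ → Set Ω} (ω : Ω) (n : ℕ) :
    (R {k : ℕ | ω ∈ A k} n : ℝ) = Co A (quad n) val2 ω := by
  classical
  have h0 : {v | v ∈ four n ∧ form v ∈ {k : ℕ | ω ∈ A k}} =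
      (((quad n).filter (fun v => ω ∈ A (val2 v)) : Finset (ℕ × ℕ × ℕ × ℕ)) : Set (ℕ × ℕ × ℕ × ℕ)) := by
    ext v
    rw [Set.mem_ofPred_eq, four_eq, Finset.mem_coe, Finset.mem_coe, Finset.mem_filter]
    rfl
  unfold R Co
  rw [h0, Set.ncard_coe_finset, Finset.card_filter]
  push_cast
  refine Finset.sum_congr rfl fun v _ => ?_
  unfold I1
  by_cases h : ω ∈ A (val2 v)
  · simp [h]
  · simp [h]

/-- **Exceptional probabilities in random models of the primes.**  For every `ε` with `0 < ε < 3/8` there is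
`c > 0` such that the following holds.  Let `z(m)` be natural numbers with `z(m) ≤ c (log log m) ^ 2` for all
large `m`, and let the events `S m` that `m` is chosen be independent, with the probabilities `rho z m`, which is
`min(1, ∏_{q ≤ z(m)} (1 - 1/q)⁻¹ / log m)` if `m` has no prime factor at most `z(m)` and `0` otherwise.  Let
`R(n)` be the number of quadruples of natural numbers with `n = x² + y² + z² + w²` for which
`2 ^ (x + y) + 2 ^ (z + w) + 1` is chosen, and `E(n)` its expectation.  (1) `E(n) ≥ n ^ (1/2 - ε)` for all large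
odd `n`.  (2) For every `η` with `0 < η ≤ 1` and all large `N` the probability that `|R(n) - E(n)| ≥ η E(n)` for
some odd `n ≥ N` is at most `exp (-N ^ (3/8 - ε))`.  (3) For all large `N` the probability that some odd
`n ≥ N` has no quadruple with chosen value is at most `exp (-N ^ (3/8 - ε))`. -/
theorem result (ε : ℝ) (hε : 0 < ε) (hε1 : ε < 3 / 8) : ∃ c : ℝ, 0 < c ∧
    ∀ {Ω : Type} [MeasurableSpace Ω] (μ : Measure Ω) [IsProbabilityMeasure μ]
    (S : ℕ → Set Ω) (_ : ∀ m, MeasurableSet (S m)) (_ : iIndepSet S μ) (z : ℕ → ℕ)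
    (_ : ∀ᶠ m : ℕ in atTop, (z m : ℝ) ≤ c * Real.log (Real.log m) ^ 2)
    (_ : ∀ m, μ.real (S m) = rho z m),
    (∀ᶠ n : ℕ in atTop, Odd n → (n : ℝ) ^ (1 / 2 - ε) ≤ E z n) ∧
    (∀ η : ℝ, 0 < η → η ≤ 1 → ∀ᶠ N : ℕ in atTop, μ.real {ω | ∃ n, N ≤ n ∧ Odd n ∧
      η * E z n ≤ |(R {k | ω ∈ S k} n : ℝ) - E z n|} ≤ Real.exp (-(N : ℝ) ^ (3 / 8 - ε))) ∧
    (∀ᶠ N : ℕ in atTop, μ.real {ω | ∃ n, N ≤ n ∧ Odd n ∧ R {k | ω ∈ S k} n = 0} ≤
      Real.exp (-(N : ℝ) ^ (3 / 8 - ε))) := by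
  classical
  obtain ⟨c, hc, hlow⟩ := Pool.Agent.N233.GM.low_E2 (ε / 2) (by positivity)
  refine ⟨c, hc, ?_⟩
  intro Ω _ μ _ S hS hind z hz hp
  have hE := hlow z hz
  have hE1 : ∀ᶠ n : ℕ in atTop, Odd n → (n : ℝ) ^ (1 / 2 - ε / 2) ≤ E z n := by
    filter_upwards [hE, eventually_ge_atTop 1] with n h1 h2 hn
    have h3 := h1 hn
    have h4 : (0 : ℝ) < (n : ℝ) ^ (1 / 2 - ε / 2) := Real.rpow_pos_of_pos (by exact_mod_cast h2) _
    have h7 : E z n = ∑ v ∈ quad n, Pool.Agent.N233.GM.rho1 z (val2 v) := by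
      rw [E_eq]
      rfl
    rw [h7]
    linarith
  have hdev : ∀ η : ℝ, 0 < η → η ≤ 1 → ∀ᶠ N : ℕ in atTop, μ.real {ω | ∃ n, N ≤ n ∧ Odd n ∧
      η * E z n ≤ |(R {k | ω ∈ S k} n : ℝ) - E z n|} ≤ Real.exp (-(N : ℝ) ^ (3 / 8 - ε)) := by
    intro η hη hη1
    have h := tail (μ := μ) hS hind (Pool.Agent.N233.GM.rho1 z) (fun m => hp m) quad val2
      (fun n => (n : ℝ) ^ (1 / 8 : ℝ)) Odd
      (by
        filter_upwards [eventually_ge_atTop 1] with n hn
        exact Real.rpow_pos_of_pos (by exact_mod_cast hn) _)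
      (by
        filter_upwards [few2] with n h1 _ m
        have h2 : (mult (quad n) val2 m : ℝ) ≤ (⌊(n : ℝ) ^ (1 / 8 : ℝ)⌋₊ : ℝ) := by
          exact_mod_cast h1 m
        exact h2.trans (Nat.floor_le (Real.rpow_nonneg (Nat.cast_nonneg _) _)))
      (3 / 8 - ε / 2) (3 / 8 - ε) (by linarith) (by linarith)
      (by
        filter_upwards [hE1, eventually_ge_atTop 1] with n h1 h2 hn
        have hn0 : (0 : ℝ) < n := by exact_mod_cast h2
        rw [← E_eq, le_div_iff₀ (Real.rpow_pos_of_pos hn0 _), ← Real.rpow_add hn0]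
        have h3 := h1 hn
        have h4 : (3 / 8 - ε / 2 + 1 / 8 : ℝ) = 1 / 2 - ε / 2 := by ring
        rw [h4]
        exact h3) η hη hη1
    filter_upwards [h] with N hN
    simp only [R_eq, E_eq]
    exact hN
  refine ⟨?_, hdev, ?_⟩
  · filter_upwards [hE1, eventually_ge_atTop 1] with n h1 h2 hn
    refine le_trans ?_ (h1 hn)
    exact Real.rpow_le_rpow_of_exponent_le (by exact_mod_cast h2) (by linarith)
  · have hpos : ∀ᶠ N : ℕ in atTop, ∀ n, N ≤ n → Odd n → 0 ≤ E z n := by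
      filter_upwards [] with N n _ _
      rw [E_eq]
      exact Finset.sum_nonneg fun v _ => (Pool.Agent.N233.GM.rho1_bounds z _).1
    filter_upwards [hdev 1 one_pos le_rfl, hpos] with N h1 h2
    refine le_trans (measureReal_mono ?_ (measure_ne_top _ _)) h1
    rintro ω ⟨n, g1, g2, g3⟩
    refine ⟨n, g1, g2, ?_⟩
    rw [g3, Nat.cast_zero, zero_sub, abs_neg, one_mul]
    exact le_abs_self _

end Pool.Agent.Results.MP_1e1427_nt.ExceptionalProbabilities
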