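import Mathlib
import Pool.Agent.N233.GM.Law
import Pool.Agent.U949.CL.Fluct2
import Pool.Agent.U949.CL.Rho
import Pool.Agent.U949.CL.Freq

set_option autoImplicit false

/-!
# Gaussian fluctuations of the number of quadruples in random models of the primes

The question is whether every odd `n > 1` is a sum of four squares `x² + y² + z² + w²` of natural
numbers such that `2 ^ (x + y) + 2 ^ (z + w) + 1` is prime.  In Cramér's model of the primes with a growing
sieve (independent choices; no `m` with a prime factor at most `z(m)` is chosen, the other `m` with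
probability `∏_{q ≤ z(m)} (1 - 1/q)⁻¹ / log m`) the number `R(n)` of such quadruples is asymptotically
normal, with mean `E(n)` and an explicit variance `V(n)`, for all odd `n → ∞`, and almost surely
`|R(n) - E(n)| ≤ 3 √(V(n) log n)` for all large odd `n`.
-/

open MeasureTheory ProbabilityTheory Filter
open scoped Topology

namespace Pool.Agent.Results.MP_1e1427_nt.GaussianFluctuations

/-- the quadruples of natural numbers with `n = x² + y² + z² + w²` -/
def four (n : ℕ) : Set (ℕ × ℕ × ℕ × ℕ) :=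
  {v | n = v.1 ^ 2 + v.2.1 ^ 2 + v.2.2.1 ^ 2 + v.2.2.2 ^ 2}

/-- the value `2 ^ (x + y) + 2 ^ (z + w) + 1` -/
def form (v : ℕ × ℕ × ℕ × ℕ) : ℕ := 2 ^ (v.1 + v.2.1) + 2 ^ (v.2.2.1 + v.2.2.2) + 1

/-- the number of quadruples of natural numbers with `n = x² + y² + z² + w²` for which
`2 ^ (x + y) + 2 ^ (z + w) + 1` belongs to `S` -/
noncomputable def R (S : Set ℕ) (n : ℕ) : ℕ := {v | v ∈ four n ∧ form v ∈ S}.ncard

/-- `∏_{q ≤ x} (1 - 1/q)⁻¹`, `q` prime -/
noncomputable def W (x : ℕ) : ℝ := ∏ q ∈ (Finset.Icc 1 x).filter Nat.Prime, (1 - (q : ℝ)⁻¹)⁻¹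

open Classical in
/-- the probability that `m` is chosen: `W (z m) / log m` (at most `1`) if `m` has no prime factor at most
`z m`, and `0` otherwise -/
noncomputable def rho (z : ℕ → ℕ) (m : ℕ) : ℝ :=
  if ∀ q, q.Prime → q ≤ z m → ¬ q ∣ m then min 1 (W (z m) / Real.log m) else 0

/-- the expected number of quadruples: the sum of `rho (2 ^ (x + y) + 2 ^ (z + w) + 1)` over all quadruples
with `n = x² + y² + z² + w²` -/
noncomputable def E (z : ℕ → ℕ) (n : ℕ) : ℝ := ∑ᶠ v ∈ four n, rho z (form v)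

/-- the number of quadruples of `n` with the value `m` -/
noncomputable def mult (n m : ℕ) : ℕ := {v | v ∈ four n ∧ form v = m}.ncard

/-- the variance of the number of quadruples: the sum of `mult(n, m)² rho(m) (1 - rho(m))` over all values
`m` of quadruples of `n` -/
noncomputable def V (z : ℕ → ℕ) (n : ℕ) : ℝ :=
  ∑ᶠ m ∈ form '' four n, (mult n m : ℝ) ^ 2 * (rho z m * (1 - rho z m))

open Pool.Agent.R494.SPL Pool.Agent.U949.CL

lemma four_eq (n : ℕ) : four n = ((quad n : Finset (ℕ × ℕ × ℕ × ℕ)) : Set (ℕ × ℕ × ℕ × ℕ)) := by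
  ext v
  rw [Finset.mem_coe, mem_quad]
  rfl

lemma E_eq (z : ℕ → ℕ) (n : ℕ) : E z n = Ex (Pool.Agent.N233.GM.rho1 z) (quad n) val2 := by
  unfold E
  rw [four_eq, finsum_mem_coe_finset]
  rfl

lemma mult_eq (n m : ℕ) : mult n m = Pool.Agent.U949.CL.mult (quad n) val2 m := by
  classical
  have h0 : {v | v ∈ four n ∧ form v = m} =
      (((quad n).filter (fun v => val2 v = m) : Finset (ℕ × ℕ × ℕ × ℕ)) : Set (ℕ × ℕ × ℕ × ℕ)) := by
    ext v
    rw [Set.mem_ofPred_eq, four_eq, Finset.mem_coe, Finset.mem_coe, Finset.mem_filter]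
    rfl
  unfold mult Pool.Agent.U949.CL.mult
  rw [h0, Set.ncard_coe_finset]

lemma V_eq (z : ℕ → ℕ) (n : ℕ) : V z n = Va (Pool.Agent.N233.GM.rho1 z) (quad n) val2 := by
  classical
  unfold V
  have : form '' four n = (((quad n).image val2 : Finset ℕ) : Set ℕ) := by
    rw [four_eq, Finset.coe_image]
    rfl
  rw [this, finsum_mem_coe_finset]
  unfold Va
  refine Finset.sum_congr rfl fun m _ => ?_
  rw [mult_eq]
  rfl

lemma R_eq {Ω : Type} {A : ℕ → Set Ω} (ω : Ω) (n : ℕ) :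
    (R {k : ℕ | ω ∈ A k} n : ℝ) = Co A (quad n) val2 ω := by
  classical
  have h0 : {v | v ∈ four n ∧ form v ∈ {k : ℕ | ω ∈ A k}} =
      (((quad n).filter (fun v => ω ∈ A (val2 v)) : Finset (ℕ × ℕ × ℕ × ℕ)) : Set (ℕ × ℕ × ℕ × ℕ)) := by
    ext v
    rw [Set.mem_ofPred_eq, four_eq, Finset.mem_coe, Finset.mem_coe, Finset.mem_filter]
    rfl
  unfold R Co
  rw [h0, Set.ncard_coe_finset, Finset.card_filter]
  push_cast
  refine Finset.sum_congr rfl fun v _ => ?_
  unfold I1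
  by_cases h : ω ∈ A (val2 v)
  · simp [h]
  · simp [h]

theorem gauss (ε : ℝ) (hε : 0 < ε) : ∃ c : ℝ, 0 < c ∧
    ∀ {Ω : Type} [MeasurableSpace Ω] (μ : Measure Ω) [IsProbabilityMeasure μ]
    (S : ℕ → Set Ω) (_ : ∀ m, MeasurableSet (S m)) (_ : iIndepSet S μ) (z : ℕ → ℕ)
    (_ : ∀ᶠ m : ℕ in atTop, (z m : ℝ) ≤ c * Real.log (Real.log m) ^ 2)
    (_ : ∀ m, μ.real (S m) = rho z m),
    (∀ᶠ n : ℕ in atTop, Odd n → (n : ℝ) ^ (1 / 2 - ε) ≤ E z n ∧ E z n / 4 ≤ V z n ∧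
      V z n ≤ (n : ℝ) ^ (1 / 8 : ℝ) * E z n) ∧
    (∀ x : ℝ, Tendsto (fun n : ℕ => μ.real {ω | (R {k | ω ∈ S k} n : ℝ) - E z n ≤ x * √(V z n)})
      (atTop ⊓ 𝓟 {n : ℕ | Odd n}) (𝓝 ((gaussianReal 0 1).real (Set.Iic x)))) ∧
    (∀ᵐ ω ∂μ, ∀ᶠ n : ℕ in atTop, Odd n →
      |(R {k | ω ∈ S k} n : ℝ) - E z n| ≤ 3 * √(V z n * Real.log n)) := by
  classical
  set δ : ℝ := min ε (1 / 16) with hδ
  have hδ0 : 0 < δ := lt_min hε (by norm_num)
  have hδ1 : δ ≤ 1 / 16 := min_le_right _ _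
  have hδε : δ ≤ ε := min_le_left _ _
  obtain ⟨c, hc, hlow⟩ := Pool.Agent.N233.GM.low_E2 δ hδ0
  refine ⟨c, hc, ?_⟩
  intro Ω _ μ _ S hS hind z hz hp
  have hE := hlow z hz
  have hE1 : ∀ᶠ n : ℕ in atTop, Odd n → (n : ℝ) ^ (1 / 2 - ε) ≤ E z n ∧
      (n : ℝ) ^ (7 / 16 : ℝ) ≤ E z n := by
    filter_upwards [hE, eventually_ge_atTop 1] with n h1 h2 hn
    have h3 := h1 hn
    have hn1 : (1 : ℝ) ≤ n := by exact_mod_cast h2
    have h4 : (0 : ℝ) < (n : ℝ) ^ (1 / 2 - δ) := Real.rpow_pos_of_pos (by linarith) _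
    have h5 : (n : ℝ) ^ (1 / 2 - ε) ≤ (n : ℝ) ^ (1 / 2 - δ) :=
      Real.rpow_le_rpow_of_exponent_le hn1 (by linarith)
    have h6 : (n : ℝ) ^ (7 / 16 : ℝ) ≤ (n : ℝ) ^ (1 / 2 - δ) :=
      Real.rpow_le_rpow_of_exponent_le hn1 (by linarith)
    have h7 : E z n = ∑ v ∈ quad n, Pool.Agent.N233.GM.rho1 z (val2 v) := by
      rw [E_eq]
      rfl
    rw [h7]
    constructor <;> linarith
  obtain ⟨r1, r2, r3⟩ := fluct8 S hS hind (Pool.Agent.N233.GM.rho1 z) (fun m => hp m) (rho1_half c z hz)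
    quad val2 Odd (by
      filter_upwards [few2] with n h1 _ m
      have h2 : (Pool.Agent.U949.CL.mult (quad n) val2 m : ℝ) ≤ (⌊(n : ℝ) ^ (1 / 8 : ℝ)⌋₊ : ℝ) := by
        exact_mod_cast h1 m
      exact h2.trans (Nat.floor_le (Real.rpow_nonneg (Nat.cast_nonneg _) _)))
    (by
      filter_upwards [hE1] with n h1 hn
      rw [← E_eq]
      exact (h1 hn).2)
  refine ⟨?_, fun x => ?_, ?_⟩
  · filter_upwards [hE1, r1] with n h1 h2 hn
    rw [← E_eq, ← V_eq] at h2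
    exact ⟨(h1 hn).1, (h2 hn).1, (h2 hn).2⟩
  · refine (r2 x).congr fun n => ?_
    simp only [R_eq, E_eq, V_eq]
  · filter_upwards [r3] with ω hω
    simp only [R_eq, E_eq, V_eq]
    exact hω

lemma val_disj {n n' : ℕ} (h : 2 * n < n') {v w : ℕ × ℕ × ℕ × ℕ} (hv : v ∈ quad n) (hw : w ∈ quad n') :
    val2 v ≠ val2 w := by
  intro he
  rw [mem_quad] at hv hw
  unfold val2 at he
  have h1 : 2 ^ (v.1 + v.2.1) + 2 ^ (v.2.2.1 + v.2.2.2) = 2 ^ (w.1 + w.2.1) + 2 ^ (w.2.2.1 + w.2.2.2) := by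
    omega
  have up : ∀ a b : ℕ, (a + b) ^ 2 ≤ 2 * (a ^ 2 + b ^ 2) := by
    intro a b
    zify
    nlinarith [sq_nonneg ((a : ℤ) - b)]
  have lo : ∀ a b : ℕ, a ^ 2 + b ^ 2 ≤ (a + b) ^ 2 := by
    intro a b
    nlinarith [Nat.zero_le (a * b)]
  have h2 := lo w.1 w.2.1
  have h3 := lo w.2.2.1 w.2.2.2
  have h4 := up v.1 v.2.1
  have h5 := up v.2.2.1 v.2.2.2
  rcases pow_sum h1 with ⟨e1, e2⟩ | ⟨e1, e2⟩
  · rw [e1] at h4
    rw [e2] at h5
    omega
  · rw [e1] at h4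
    rw [e2] at h5
    omega

/-- the number of `k < K` with `R(n k) - E(n k) ≤ x √V(n k)` for the set `A` -/
noncomputable def below (z : ℕ → ℕ) (A : Set ℕ) (n : ℕ → ℕ) (x : ℝ) (K : ℕ) : ℕ :=
  {k | k < K ∧ (R A (n k) : ℝ) - E z (n k) ≤ x * √(V z (n k))}.ncard

open Classical in
lemma below_eq (z : ℕ → ℕ) (A : Set ℕ) (n : ℕ → ℕ) (x : ℝ) (K : ℕ) :
    below z A n x K =
      ((Finset.range K).filter (fun k => (R A (n k) : ℝ) - E z (n k) ≤ x * √(V z (n k)))).card := by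
  unfold below
  rw [← Set.ncard_coe_finset]
  congr 1
  ext k
  simp only [Set.mem_ofPred_eq, Finset.coe_filter, Finset.mem_range]

/-- **Gaussian fluctuations in random models of the primes.**  For every `ε > 0` there is `c > 0` such
that the following holds.  Let `z(m)` be natural numbers with `z(m) ≤ c (log log m) ^ 2` for all large `m`, and
let the events `S m` that `m` is chosen be independent, with the probabilities `rho z m`, which is
`min(1, ∏_{q ≤ z(m)} (1 - 1/q)⁻¹ / log m)` if `m` has no prime factor at most `z(m)` and `0` otherwise.  Let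
`R(n)` be the number of quadruples of natural numbers with `n = x² + y² + z² + w²` for which
`2 ^ (x + y) + 2 ^ (z + w) + 1` is chosen, `E(n)` its expectation and `V(n)` its variance.
(1) `E(n) ≥ n ^ (1/2 - ε)` and `E(n) / 4 ≤ V(n) ≤ n ^ (1/8) E(n)` for all large odd `n`.
(2) For every real `x` the probability of `R(n) - E(n) ≤ x √V(n)` tends to `Φ(x)` as `n → ∞`, `n` odd, where
`Φ` is the distribution function of the standard normal law.
(3) Almost surely `|R(n) - E(n)| ≤ 3 √(V(n) log n)` for all large odd `n`.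
(4) Let `n 0, n 1, …` be odd numbers with `n (k + 1) > 2 n k`, and let `x` be real.  Almost surely the proportion
of the `k < K` with `R(n k) - E(n k) ≤ x √V(n k)` tends to `Φ(x)` as `K → ∞`.
(5) Almost surely for all real `a < b` there are infinitely many odd `n` with
`a √V(n) < R(n) - E(n) ≤ b √V(n)`. -/
theorem result (ε : ℝ) (hε : 0 < ε) : ∃ c : ℝ, 0 < c ∧
    ∀ {Ω : Type} [MeasurableSpace Ω] (μ : Measure Ω) [IsProbabilityMeasure μ]
    (S : ℕ → Set Ω) (_ : ∀ m, MeasurableSet (S m)) (_ : iIndepSet S μ) (z : ℕ → ℕ)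
    (_ : ∀ᶠ m : ℕ in atTop, (z m : ℝ) ≤ c * Real.log (Real.log m) ^ 2)
    (_ : ∀ m, μ.real (S m) = rho z m),
    (∀ᶠ n : ℕ in atTop, Odd n → (n : ℝ) ^ (1 / 2 - ε) ≤ E z n ∧ E z n / 4 ≤ V z n ∧
      V z n ≤ (n : ℝ) ^ (1 / 8 : ℝ) * E z n) ∧
    (∀ x : ℝ, Tendsto (fun n : ℕ => μ.real {ω | (R {k | ω ∈ S k} n : ℝ) - E z n ≤ x * √(V z n)})
      (atTop ⊓ 𝓟 {n : ℕ | Odd n}) (𝓝 ((gaussianReal 0 1).real (Set.Iic x)))) ∧
    (∀ᵐ ω ∂μ, ∀ᶠ n : ℕ in atTop, Odd n →
      |(R {k | ω ∈ S k} n : ℝ) - E z n| ≤ 3 * √(V z n * Real.log n)) ∧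
    (∀ (n : ℕ → ℕ) (_ : ∀ k, Odd (n k)) (_ : ∀ k, 2 * n k < n (k + 1)) (x : ℝ),
      ∀ᵐ ω ∂μ, Tendsto (fun K : ℕ => (below z {m | ω ∈ S m} n x K : ℝ) / K) atTop
        (𝓝 ((gaussianReal 0 1).real (Set.Iic x)))) ∧
    (∀ᵐ ω ∂μ, ∀ a b : ℝ, a < b → {n : ℕ | Odd n ∧ a * √(V z n) < (R {m | ω ∈ S m} n : ℝ) - E z n ∧
      (R {m | ω ∈ S m} n : ℝ) - E z n ≤ b * √(V z n)}.Infinite) := by
  classical
  obtain ⟨c, hc, hg⟩ := gauss ε hε
  refine ⟨c, hc, ?_⟩
  intro Ω _ μ _ S hS hind z hz hp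
  obtain ⟨g1, g2, g3⟩ := hg μ S hS hind z hz hp
  have hfreq : ∀ (n : ℕ → ℕ) (_ : ∀ k, Odd (n k)) (_ : ∀ k, 2 * n k < n (k + 1)) (x : ℝ),
      ∀ᵐ ω ∂μ, Tendsto (fun K : ℕ => (below z {m | ω ∈ S m} n x K : ℝ) / K) atTop
        (𝓝 ((gaussianReal 0 1).real (Set.Iic x))) := by
    intro n hodd hn x
    have hmono : StrictMono n := strictMono_nat_of_lt_succ (fun k => by have := hn k; omega)
    have htop : Tendsto n atTop (atTop ⊓ 𝓟 {n : ℕ | Odd n}) :=
      tendsto_inf.2 ⟨hmono.tendsto_atTop, tendsto_principal.2 (Eventually.of_forall hodd)⟩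
    have hlt : ∀ k l, k < l → 2 * n k < n l := by
      intro k l hkl
      have h1 := hn k
      have h2 : n (k + 1) ≤ n l := hmono.monotone hkl
      omega
    have hdisj : ∀ k l, k ≠ l → ∀ v ∈ quad (n k), ∀ w ∈ quad (n l), val2 v ≠ val2 w := by
      intro k l hkl v hv w hw
      rcases lt_or_gt_of_ne hkl with h | h
      · exact val_disj (hlt k l h) hv hw
      · exact (val_disj (hlt l k h) hw hv).symm
    have hT : ∀ k, {ω | (R {m | ω ∈ S m} (n k) : ℝ) - E z (n k) ≤ x * √(V z (n k))} =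
        {ω | Co S (quad (n k)) val2 ω ∈ Set.Iic (E z (n k) + x * √(V z (n k)))} := by
      intro k
      ext ω
      rw [Set.mem_ofPred_eq, Set.mem_ofPred_eq, Set.mem_Iic, R_eq]
      constructor <;> intro h <;> linarith
    have hind2 := indep_blocks (μ := μ) hS hind (fun k => quad (n k)) val2 hdisj
      (fun k => Set.Iic (E z (n k) + x * √(V z (n k)))) (fun _ => measurableSet_Iic)
    have hmeas : ∀ k, MeasurableSet {ω | Co S (quad (n k)) val2 ω ∈
        Set.Iic (E z (n k) + x * √(V z (n k)))} :=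
      fun k => (Fs_le hS _) _ (Co_meas S (quad (n k)) val2 measurableSet_Iic)
    have hlim : Tendsto (fun k => μ.real {ω | Co S (quad (n k)) val2 ω ∈
        Set.Iic (E z (n k) + x * √(V z (n k)))}) atTop (𝓝 ((gaussianReal 0 1).real (Set.Iic x))) := by
      refine ((g2 x).comp htop).congr fun k => ?_
      simp only [Function.comp_apply]
      rw [hT]
    have h := freq_ae hmeas hind2 (gauss_pos0 x) hlim
    filter_upwards [h] with ω hω
    refine hω.congr fun K => ?_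
    congr 1
    have e1 : Co (fun k => {ω | Co S (quad (n k)) val2 ω ∈ Set.Iic (E z (n k) + x * √(V z (n k)))})
        (Finset.range K) id ω =
        ∑ k ∈ Finset.range K, I1 {ω | Co S (quad (n k)) val2 ω ∈ Set.Iic (E z (n k) + x * √(V z (n k)))} ω := rfl
    refine e1.trans ?_
    rw [below_eq, Finset.card_filter]
    push_cast
    refine Finset.sum_congr rfl fun k _ => ?_
    have hk : (ω ∈ {ω | Co S (quad (n k)) val2 ω ∈ Set.Iic (E z (n k) + x * √(V z (n k)))}) ↔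
        (R {m | ω ∈ S m} (n k) : ℝ) - E z (n k) ≤ x * √(V z (n k)) := by
      rw [← hT k]
      rfl
    show Set.indicator {ω | Co S (quad (n k)) val2 ω ∈ Set.Iic (E z (n k) + x * √(V z (n k)))}
      (fun _ => (1 : ℝ)) ω = _
    by_cases hh : (R {m | ω ∈ S m} (n k) : ℝ) - E z (n k) ≤ x * √(V z (n k))
    · rw [if_pos hh, Set.indicator_of_mem (hk.2 hh)]
    · rw [if_neg hh, Set.indicator_of_notMem (fun hc => hh (hk.1 hc))]
  have hdense : ∀ᵐ ω ∂μ, ∀ a b : ℝ, a < b → {n : ℕ | Odd n ∧ a * √(V z n) < (R {m | ω ∈ S m} n : ℝ) - E z n ∧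
      (R {m | ω ∈ S m} n : ℝ) - E z n ≤ b * √(V z n)}.Infinite := by
    have h2 : ∀ᵐ ω ∂μ, ∀ r : ℚ, Tendsto (fun K : ℕ =>
        (below z {m | ω ∈ S m} (fun k => 3 ^ (k + 1)) (r : ℝ) K : ℝ) / K) atTop
        (𝓝 ((gaussianReal 0 1).real (Set.Iic (r : ℝ)))) := by
      rw [ae_all_iff]
      intro r
      refine hfreq (fun k => 3 ^ (k + 1)) (fun k => Odd.pow (by decide)) (fun k => ?_) (r : ℝ)
      have : 0 < 3 ^ (k + 1) := by positivity
      show 2 * 3 ^ (k + 1) < 3 ^ (k + 1 + 1)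
      rw [pow_succ 3 (k + 1)]
      omega
    filter_upwards [h2] with ω hω
    intro a b hab hfin
    obtain ⟨r, hr1, hr2⟩ := exists_rat_btwn hab
    obtain ⟨s, hs1, hs2⟩ := exists_rat_btwn hr2
    obtain ⟨N, hN⟩ := hfin.bddAbove
    have hle : ∀ K : ℕ, (below z {m | ω ∈ S m} (fun k => 3 ^ (k + 1)) (s : ℝ) K : ℝ) / K -
        (below z {m | ω ∈ S m} (fun k => 3 ^ (k + 1)) (r : ℝ) K : ℝ) / K ≤ N / K := by
      intro K
      have h3 : below z {m | ω ∈ S m} (fun k => 3 ^ (k + 1)) (s : ℝ) K ≤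
          below z {m | ω ∈ S m} (fun k => 3 ^ (k + 1)) (r : ℝ) K + N := by
        rw [below_eq, below_eq]
        have h4 : (Finset.range K).filter (fun k => (R {m | ω ∈ S m} (3 ^ (k + 1)) : ℝ) - E z (3 ^ (k + 1)) ≤
            s * √(V z (3 ^ (k + 1)))) ⊆
            (Finset.range K).filter (fun k => (R {m | ω ∈ S m} (3 ^ (k + 1)) : ℝ) - E z (3 ^ (k + 1)) ≤
            r * √(V z (3 ^ (k + 1)))) ∪ Finset.range N := by
          intro k hk
          obtain ⟨hk1, hk2⟩ := Finset.mem_filter.1 hk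
          rw [Finset.mem_union]
          by_cases hk3 : (R {m | ω ∈ S m} (3 ^ (k + 1)) : ℝ) - E z (3 ^ (k + 1)) ≤ r * √(V z (3 ^ (k + 1)))
          · exact Or.inl (Finset.mem_filter.2 ⟨hk1, hk3⟩)
          · right
            push Not at hk3
            have hsq := Real.sqrt_nonneg (V z (3 ^ (k + 1)))
            have hmem : 3 ^ (k + 1) ∈ {n : ℕ | Odd n ∧ a * √(V z n) < (R {m | ω ∈ S m} n : ℝ) - E z n ∧
                (R {m | ω ∈ S m} n : ℝ) - E z n ≤ b * √(V z n)} := by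
              refine ⟨Odd.pow (by decide), ?_, ?_⟩
              · exact lt_of_le_of_lt (mul_le_mul_of_nonneg_right hr1.le hsq) hk3
              · exact hk2.trans (mul_le_mul_of_nonneg_right hs2.le hsq)
            have h5 := hN hmem
            have h6 : k + 1 < 3 ^ (k + 1) := Nat.lt_pow_self (by norm_num)
            rw [Finset.mem_range]
            omega
        calc _ ≤ _ := Finset.card_le_card h4
          _ ≤ _ := Finset.card_union_le _ _
          _ = _ := by rw [Finset.card_range]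
      have h7 : (below z {m | ω ∈ S m} (fun k => 3 ^ (k + 1)) (s : ℝ) K : ℝ) ≤
          below z {m | ω ∈ S m} (fun k => 3 ^ (k + 1)) (r : ℝ) K + N := by exact_mod_cast h3
      rw [← sub_div]
      exact div_le_div_of_nonneg_right (by linarith) (Nat.cast_nonneg _)
    have h8 := le_of_tendsto_of_tendsto' ((hω s).sub (hω r)) (tendsto_const_div_atTop_nhds_zero_nat (N : ℝ)) hle
    have h9 := gauss_pos hs1
    linarith
  exact ⟨g1, g2, g3, hfreq, hdense⟩

end Pool.Agent.Results.MP_1e1427_nt.GaussianFluctuations
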