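import Pool.Agent.U449.BV.S
import Pool.Agent.Results.MP_1e1427_nt.AlmostAllOddIntegers

/-!
# Four squares and primes: odd integers near the values of polynomials in two variables on arbitrary dense sets

Let `p` be a large prime and `f(x, y)` ANY polynomial modulo `p` of bounded degree with a monomial which contains both variables (for
example `f = x y`), let `A`, `B` be ARBITRARY sets of at least `η p` residues modulo `p`, and `g`, `h` ARBITRARY functions. For all
but `η |A| |B|` of the pairs `(a, b)` in `A × B`, ALL odd integers `n` at a distance of at most `W` from the least residue of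
`f(a, b) + g(a) + h(b)` have at least `δ √p / L` representations `n = x² + y² + z² + w²` for which all prime factors of
`2^(x+y) + 2^(z+w) + 1` are larger than `L`, for every `L` up to `√p / (Q (log p)²)`. More generally, this holds for all functions
`F(a, b)` with few coincidences (`Rare`).

Since the sets and the functions `g` and `h` are arbitrary, the values have no arithmetic structure, and a value may be
taken by very many pairs. So the number of the exceptions (starting library) does not give the result directly. Proof: the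
inequality of Cauchy and Schwarz; for most pairs `a, a'` the difference `F(a, b) - F(a', b)` is small for few `b`
(`Pool.Agent.U449.BV`).
-/

set_option autoImplicit false

namespace Pool.Agent.Results.MP_1e1427_nt.MixedOnDenseSets

open Finset
open Pool.Agent.U449.BV (Rare dense_window residues)
open Pool.Agent.Results.MP_1e1427_nt.AlmostAllOddIntegers (quads)

/-- the odd integers with fewer than `m` quadruples -/
def Few (L m : ℝ) : Set ℕ := {n | Odd n ∧ ((quads L n).ncard : ℝ) < m}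

/-- ALL odd natural numbers `n` with `|n - x| ≤ W` have at least `m` quadruples `n = x² + y² + z² + w²` for which all prime
factors of `2^(x+y) + 2^(z+w) + 1` are larger than `L`. -/
def Near (L m W x : ℝ) : Prop :=
  ∀ n : ℕ, Odd n → |(n : ℝ) - x| ≤ W → m ≤ ((quads L n).ncard : ℝ)

/-- **Theorem.** For all `η > 0`, `W ≥ 1` and `d` there are `δ > 0` and `Q > 0` such that for all large `X` and all `L ≥ 1` with
`Q L (log X)² ≤ √X`: for all finite sets `A`, `B` of at least `η X` elements and all functions `F`, `|F| ≤ X`, with few coincidences,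
for all but `η |A| |B|` of the pairs `(a, b)` ALL odd `n` with `|n - F(a, b)| ≤ W` have at least `δ √X / L` quadruples
`n = x² + y² + z² + w²` for which all prime factors of `2^(x+y) + 2^(z+w) + 1` are larger than `L`.
The least residues modulo `p` of `f(a, b) + g(a) + h(b)` are such a function, bounded by `X = p`, for all primes `p`, all
polynomials `f` modulo `p` with a monomial which contains both variables, arbitrary functions `g` and `h`, and arbitrary sets of
residues. -/
theorem result :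
    (∀ (η W : ℝ) (d : ℕ), 0 < η → 1 ≤ W → ∃ δ : ℝ, 0 < δ ∧ ∃ Q : ℝ, 0 < Q ∧ ∃ X₀ : ℝ, ∀ X : ℝ, X₀ ≤ X →
      ∀ L : ℝ, 1 ≤ L → Q * L * (Real.log X) ^ 2 ≤ √X →
      ∀ (α β : Type) (A : Finset α) (B : Finset β) (F : α → β → ℝ),
        η * X ≤ A.card → η * X ≤ B.card → (∀ a ∈ A, ∀ b ∈ B, |F a b| ≤ X) → Rare d A B F →
        ({z : α × β | z.1 ∈ A ∧ z.2 ∈ B ∧ ¬ Near L (δ * (√X / L)) W (F z.1 z.2)}.ncard : ℝ) ≤
          η * (A.card * B.card)) ∧
    ∀ (p : ℕ) [Fact p.Prime] (d : ℕ) (f : MvPolynomial (Fin 2) (ZMod p)), f.totalDegree ≤ d →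
      (∃ m ∈ f.support, m 0 ≠ 0 ∧ m 1 ≠ 0) → ∀ (g h : ZMod p → ZMod p) (A B : Finset (ZMod p)),
        Rare d A B (fun a b => (((MvPolynomial.eval ![a, b] f + g a + h b).val : ℕ) : ℝ)) := by
  classical
  refine ⟨fun η W d hη hW => ?_, residues⟩
  have hc : 0 < 56 * ((d : ℝ) + 1) * (1 + W) := by positivity
  obtain ⟨ε, hε⟩ : ∃ ε, ε = η ^ 3 / (56 * ((d : ℝ) + 1) * (1 + W)) := ⟨_, rfl⟩
  have hε0 : 0 < ε := by rw [hε]; positivity
  obtain ⟨δ, hδ, Q, hQ, X₁, hX₁⟩ := AlmostAllOddIntegers.result ε hε0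
  refine ⟨δ, hδ, 4 * Q, by positivity, max (X₁ : ℝ) (max W 2), fun X hX L hL hQL α β A B F hA hB hF hR => ?_⟩
  have hXX : (X₁ : ℝ) ≤ X := (le_max_left _ _).trans hX
  have hXW : W ≤ X := (le_max_left _ _).trans ((le_max_right _ _).trans hX)
  have hX2 : 2 ≤ X := (le_max_right _ _).trans ((le_max_right _ _).trans hX)
  have hX0 : 0 < X := by linarith
  have hL0 : 0 < L := by linarith
  obtain ⟨M, hM⟩ : ∃ M : ℕ, M = ⌊2 * X⌋₊ := ⟨_, rfl⟩
  have hM1 : (M : ℝ) ≤ 2 * X := by rw [hM]; exact Nat.floor_le (by linarith)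
  have hM2 : X ≤ (M : ℝ) := by
    have h1 := Nat.lt_floor_add_one (2 * X)
    rw [← hM] at h1
    linarith
  have hM0 : (0 : ℝ) < M := by linarith
  have hMX : X₁ ≤ M := by exact_mod_cast hXX.trans hM2
  have hsq : √X ≤ √(M : ℝ) := Real.sqrt_le_sqrt hM2
  have hlog : Real.log M ≤ 2 * Real.log X := by
    have h1 : Real.log M ≤ Real.log (2 * X) := Real.log_le_log hM0 hM1
    have h2 : Real.log (2 * X) = Real.log 2 + Real.log X := Real.log_mul (by norm_num) (by linarith)
    have h3 : Real.log 2 ≤ Real.log X := Real.log_le_log (by norm_num) hX2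
    linarith
  have hlog0 : 0 ≤ Real.log M := Real.log_nonneg (by linarith)
  have hcond : Q * L * (Real.log M) ^ 2 ≤ √(M : ℝ) := by
    have h1 : (Real.log M) ^ 2 ≤ (2 * Real.log X) ^ 2 := pow_le_pow_left₀ hlog0 hlog 2
    calc Q * L * (Real.log M) ^ 2 ≤ Q * L * (2 * Real.log X) ^ 2 := mul_le_mul_of_nonneg_left h1 (by positivity)
      _ = 4 * Q * L * (Real.log X) ^ 2 := by ring
      _ ≤ √X := hQL
      _ ≤ _ := hsq
  have hcount := hX₁ M hMX L hL hcond
  have hsub : {t | t ∈ Few L (δ * (√X / L)) ∧ (t : ℝ) ≤ 2 * X} ⊆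
      (((Finset.range (M + 1)).filter
        (fun n => Odd n ∧ ((quads L n).ncard : ℝ) < δ * (√(M : ℝ) / L)) : Finset ℕ) : Set ℕ) := by
    rintro t ⟨⟨h1, h2⟩, h3⟩
    rw [mem_coe, mem_filter, mem_range]
    have h4 : t ≤ M := by rw [hM]; exact Nat.le_floor h3
    refine ⟨by omega, h1, h2.trans_le ?_⟩
    exact mul_le_mul_of_nonneg_left (div_le_div_of_nonneg_right hsq hL0.le) hδ.le
  have hS : {t | t ∈ Few L (δ * (√X / L)) ∧ ((t : ℕ) : ℝ) ≤ 2 * X}.Finite ∧
      ({t | t ∈ Few L (δ * (√X / L)) ∧ ((t : ℕ) : ℝ) ≤ 2 * X}.ncard : ℝ) ≤ ε * (2 * X) := by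
    refine ⟨(Finset.finite_toSet _).subset hsub, ?_⟩
    have h1 := Set.ncard_le_ncard hsub (Finset.finite_toSet _)
    rw [Set.ncard_coe_finset] at h1
    calc ({t | t ∈ Few L (δ * (√X / L)) ∧ ((t : ℕ) : ℝ) ≤ 2 * X}.ncard : ℝ) ≤
        (((Finset.range (M + 1)).filter
          (fun n => Odd n ∧ ((quads L n).ncard : ℝ) < δ * (√(M : ℝ) / L))).card : ℝ) := by exact_mod_cast h1
      _ ≤ ε * M := hcount
      _ ≤ ε * (2 * X) := mul_le_mul_of_nonneg_left hM1 hε0.le
  have h1 := dense_window (fun t : ℕ => (t : ℝ)) (Few L (δ * (√X / L))) hW hXW (ε * (2 * X)) hS hF hR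
  have hA0 : (0 : ℝ) < A.card := lt_of_lt_of_le (by positivity) hA
  have hB0 : (0 : ℝ) < B.card := lt_of_lt_of_le (by positivity) hB
  have h2 : 1 / (A.card : ℝ) + W / B.card ≤ (1 + W) / (η * X) := by
    have h3 : 1 / (A.card : ℝ) ≤ 1 / (η * X) := one_div_le_one_div_of_le (by positivity) hA
    have h4 : W / (B.card : ℝ) ≤ W / (η * X) := div_le_div_of_nonneg_left (by linarith) (by positivity) hB
    rw [add_div]
    linarith
  have hd0 : (0 : ℝ) ≤ d := Nat.cast_nonneg d
  have h5 : 28 * (d : ℝ) * (ε * (2 * X)) * (1 / A.card + W / B.card) ≤ η ^ 2 := by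
    calc 28 * (d : ℝ) * (ε * (2 * X)) * (1 / A.card + W / B.card) ≤
          28 * (d : ℝ) * (ε * (2 * X)) * ((1 + W) / (η * X)) := mul_le_mul_of_nonneg_left h2 (by positivity)
      _ ≤ 28 * ((d : ℝ) + 1) * (ε * (2 * X)) * ((1 + W) / (η * X)) := by
          apply mul_le_mul_of_nonneg_right _ (by positivity)
          apply mul_le_mul_of_nonneg_right _ (by positivity)
          linarith
      _ = η ^ 2 := by
          rw [hε]
          have hW1 : (1 + W) ≠ 0 := by positivity
          have hd1 : ((d : ℝ) + 1) ≠ 0 := by positivity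
          field_simp
          ring
  have hset : {z : α × β | z.1 ∈ A ∧ z.2 ∈ B ∧ ¬ Near L (δ * (√X / L)) W (F z.1 z.2)} =
      {z : α × β | z.1 ∈ A ∧ z.2 ∈ B ∧ ∃ t ∈ Few L (δ * (√X / L)), |((t : ℕ) : ℝ) - F z.1 z.2| ≤ W} := by
    ext z
    simp only [Set.mem_ofPred_eq, Near, Few]
    push Not
    refine and_congr_right fun _ => and_congr_right fun _ => ⟨?_, ?_⟩
    · rintro ⟨t, h1, h2, h3⟩
      exact ⟨t, ⟨h1, h3⟩, h2⟩
    · rintro ⟨t, ⟨h1, h3⟩, h2⟩
      exact ⟨t, h1, h2, h3⟩
  rw [hset]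
  have h6 : ({z : α × β | z.1 ∈ A ∧ z.2 ∈ B ∧ ∃ t ∈ Few L (δ * (√X / L)), |((t : ℕ) : ℝ) - F z.1 z.2| ≤ W}.ncard : ℝ) ^ 2 ≤
      (η * (A.card * B.card)) ^ 2 := by
    have e : (η * ((A.card : ℝ) * B.card)) ^ 2 = η ^ 2 * ((A.card : ℝ) * B.card) ^ 2 := by ring
    rw [e]
    exact h1.trans (mul_le_mul_of_nonneg_right h5 (by positivity))
  exact (pow_le_pow_iff_left₀ (Nat.cast_nonneg _) (by positivity) (by norm_num)).1 h6

end Pool.Agent.Results.MP_1e1427_nt.MixedOnDenseSets
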